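import Pool.Agent.Helper6.NX.GoalsB

/-! # Packet NX-S2A (MP_75608d_al): the information content -/

set_option autoImplicit false

namespace Pool.Agent.Helper62.NX

open Equiv
open Pool.Agent.Helper6.NX (IsLaw law ent cent res HD ini im AA VV FF avF kern kap)

variable {n : ℕ}

open Classical in
/-- probability of the class of `f` on `D` -/
noncomputable def AD (ν : Perm (Fin n) → ℝ) (D : Finset (Fin n)) (f : Perm (Fin n)) : ℝ :=
  ∑ g : Perm (Fin n), if (∀ x ∈ D, g x = f x) then ν g else 0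

open Classical in
/-- probability of the class of `f` on `insert p D` -/
noncomputable def BD (ν : Perm (Fin n) → ℝ) (D : Finset (Fin n)) (f : Perm (Fin n))
    (p : Fin n) : ℝ :=
  ∑ g : Perm (Fin n), if (∀ x ∈ D, g x = f x) ∧ g p = f p then ν g else 0

lemma kern_eq (ν : Perm (Fin n) → ℝ) (D : Finset (Fin n)) (f : Perm (Fin n)) (p : Fin n) :
    kern ν D f (f p) p = BD ν D f p / AD ν D f := by
  unfold kern BD AD
  rfl

lemma res_eq_iff (D : Finset (Fin n)) (g f : Perm (Fin n)) :
    res D g = res D f ↔ ∀ x ∈ D, g x = f x := by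
  constructor
  · intro h x hx
    have := congrFun h x
    simp only [res, if_pos hx] at this
    exact Option.some.inj this
  · intro h
    funext x
    unfold res
    by_cases hx : x ∈ D
    · rw [if_pos hx, if_pos hx, h x hx]
    · rw [if_neg hx, if_neg hx]

lemma AD_law (ν : Perm (Fin n) → ℝ) (D : Finset (Fin n)) (f : Perm (Fin n)) :
    AD ν D f = law ν (res D) (res D f) := by
  unfold AD law
  refine Finset.sum_congr rfl fun g _ => ?_
  by_cases h : ∀ x ∈ D, g x = f x
  · rw [if_pos h, if_pos ((res_eq_iff D g f).2 h)]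
  · rw [if_neg h, if_neg (fun h' => h ((res_eq_iff D g f).1 h'))]

lemma BD_law (ν : Perm (Fin n) → ℝ) (D : Finset (Fin n)) (f : Perm (Fin n)) (p : Fin n) :
    BD ν D f p = law ν (fun h => (h p, res D h)) (f p, res D f) := by
  unfold BD law
  refine Finset.sum_congr rfl fun g _ => ?_
  have hiff : (g p, res D g) = (f p, res D f) ↔ (∀ x ∈ D, g x = f x) ∧ g p = f p := by
    rw [Prod.mk.injEq, res_eq_iff]
    exact and_comm
  by_cases h : (∀ x ∈ D, g x = f x) ∧ g p = f p
  · rw [if_pos h, if_pos (hiff.2 h)]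
  · rw [if_neg h, if_neg (fun h' => h (hiff.1 h'))]

lemma BD_ge {ν : Perm (Fin n) → ℝ} (hν : IsLaw ν) (D : Finset (Fin n)) (f : Perm (Fin n))
    (p : Fin n) : ν f ≤ BD ν D f p := by
  classical
  unfold BD
  have h := Finset.single_le_sum (s := Finset.univ)
    (f := fun g : Perm (Fin n) => if (∀ x ∈ D, g x = f x) ∧ g p = f p then ν g else 0)
    (fun g _ => by
      split_ifs
      · exact hν.1 g
      · exact le_rfl) (Finset.mem_univ f)
  simpa using h

lemma BD_le_AD {ν : Perm (Fin n) → ℝ} (hν : IsLaw ν) (D : Finset (Fin n)) (f : Perm (Fin n))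
    (p : Fin n) : BD ν D f p ≤ AD ν D f := by
  classical
  unfold BD AD
  refine Finset.sum_le_sum fun g _ => ?_
  by_cases h : ∀ x ∈ D, g x = f x
  · rw [if_pos h]
    split_ifs
    · exact le_rfl
    · exact hν.1 g
  · rw [if_neg h, if_neg (fun h' => h h'.1)]

lemma kern_pos {ν : Perm (Fin n) → ℝ} (hν : IsLaw ν) (D : Finset (Fin n)) (f : Perm (Fin n))
    (p : Fin n) (hf : 0 < ν f) : 0 < kern ν D f (f p) p ∧ kern ν D f (f p) p ≤ 1 := by
  rw [kern_eq]
  have h1 : 0 < BD ν D f p := lt_of_lt_of_le hf (BD_ge hν D f p)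
  have h2 : 0 < AD ν D f := lt_of_lt_of_le h1 (BD_le_AD hν D f p)
  exact ⟨div_pos h1 h2, (div_le_one h2).2 (BD_le_AD hν D f p)⟩

lemma cent_eq {ν : Perm (Fin n) → ℝ} (hν : IsLaw ν) (D : Finset (Fin n)) (p : Fin n) :
    ∑ f, ν f * (-Real.log (kern ν D f (f p) p)) = cent ν (fun h => h p) (res D) := by
  have h1 : cent ν (fun h => h p) (res D) =
      (-∑ f, ν f * Real.log (BD ν D f p)) - (-∑ f, ν f * Real.log (AD ν D f)) := by
    have e1 : ent ν (fun ω => (ω p, res D ω)) = -∑ f, ν f * Real.log (BD ν D f p) := by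
      unfold ent
      simp only [BD_law]
    have e2 : ent ν (res D) = -∑ f, ν f * Real.log (AD ν D f) := by
      unfold ent
      simp only [AD_law]
    unfold cent
    rw [e1, e2]
  rw [h1, ← Finset.sum_neg_distrib, ← Finset.sum_neg_distrib, ← Finset.sum_sub_distrib]
  refine Finset.sum_congr rfl fun f _ => ?_
  rcases (hν.1 f).eq_or_lt with h | h
  · rw [← h]; ring
  · have h2 : 0 < BD ν D f p := lt_of_lt_of_le h (BD_ge hν D f p)
    have h3 : 0 < AD ν D f := lt_of_lt_of_le h2 (BD_le_AD hν D f p)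
    rw [kern_eq, Real.log_div h2.ne' h3.ne']
    ring

/-- `∑ ν f / kap ≤ n` -/
lemma sum_inv {ν : Perm (Fin n) → ℝ} (hν : IsLaw ν) (D : Finset (Fin n)) (p : Fin n) :
    ∑ f, ν f * (AD ν D f / BD ν D f p) ≤ n := by
  classical
  have h1 : ∀ f : Perm (Fin n), ν f * (AD ν D f / BD ν D f p) =
      ∑ g : Perm (Fin n), if (∀ x ∈ D, g x = f x) then ν g * (ν f / BD ν D f p) else 0 := by
    intro f
    have : AD ν D f = ∑ g : Perm (Fin n), if (∀ x ∈ D, g x = f x) then ν g else 0 := by
      unfold AD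
      exact Finset.sum_congr rfl fun g _ => by congr
    rw [this, Finset.sum_div, Finset.mul_sum]
    refine Finset.sum_congr rfl fun g _ => ?_
    split_ifs
    · ring
    · ring
  have h2 : ∑ f, ν f * (AD ν D f / BD ν D f p) =
      ∑ g : Perm (Fin n), ν g * ∑ f : Perm (Fin n),
        (if (∀ x ∈ D, g x = f x) then ν f / BD ν D f p else 0) := by
    rw [Finset.sum_congr rfl fun f _ => h1 f, Finset.sum_comm]
    refine Finset.sum_congr rfl fun g _ => ?_
    rw [Finset.mul_sum]
    refine Finset.sum_congr rfl fun f _ => ?_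
    split_ifs
    · rfl
    · ring
  have h3 : ∀ g : Perm (Fin n), ∑ f : Perm (Fin n),
      (if (∀ x ∈ D, g x = f x) then ν f / BD ν D f p else 0) ≤ n := by
    intro g
    set C : Fin n → ℝ := fun v => ∑ h : Perm (Fin n),
      if (∀ x ∈ D, h x = g x) ∧ h p = v then ν h else 0 with hC
    have h4 : ∀ f : Perm (Fin n), (if (∀ x ∈ D, g x = f x) then ν f / BD ν D f p else 0) =
        ∑ v : Fin n, if (∀ x ∈ D, f x = g x) ∧ f p = v then ν f / C v else 0 := by
      intro f
      by_cases h : ∀ x ∈ D, g x = f x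
      · rw [if_pos h, Finset.sum_eq_single (f p)]
        · rw [if_pos ⟨fun x hx => (h x hx).symm, rfl⟩]
          congr 1
          rw [hC]
          unfold BD
          refine Finset.sum_congr rfl fun w _ => ?_
          have hiff : ((∀ x ∈ D, w x = f x) ∧ w p = f p) ↔
              ((∀ x ∈ D, w x = g x) ∧ w p = f p) := by
            refine and_congr_left fun _ => forall₂_congr fun x hx => ?_
            rw [h x hx]
          by_cases hw : (∀ x ∈ D, w x = f x) ∧ w p = f p
          · rw [if_pos hw, if_pos (hiff.1 hw)]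
          · rw [if_neg hw, if_neg (fun h' => hw (hiff.2 h'))]
        · intro v _ hv
          rw [if_neg (fun h' => hv h'.2.symm)]
        · intro h'
          exact absurd (Finset.mem_univ _) h'
      · rw [if_neg h]
        symm
        refine Finset.sum_eq_zero fun v _ => ?_
        rw [if_neg (fun h' => h fun x hx => (h'.1 x hx).symm)]
    rw [Finset.sum_congr rfl fun f _ => h4 f, Finset.sum_comm]
    calc ∑ v : Fin n, ∑ f : Perm (Fin n),
          (if (∀ x ∈ D, f x = g x) ∧ f p = v then ν f / C v else 0)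
        ≤ ∑ v : Fin n, (1 : ℝ) := by
          refine Finset.sum_le_sum fun v _ => ?_
          have h5 : ∑ f : Perm (Fin n),
              (if (∀ x ∈ D, f x = g x) ∧ f p = v then ν f / C v else 0) = C v / C v := by
            conv_rhs => rw [hC]
            dsimp only
            rw [Finset.sum_div]
            refine Finset.sum_congr rfl fun f _ => ?_
            split_ifs
            · rfl
            · rw [zero_div]
          rw [h5]
          exact div_self_le_one _
      _ = n := by simp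
  rw [h2]
  calc ∑ g : Perm (Fin n), ν g * ∑ f : Perm (Fin n),
        (if (∀ x ∈ D, g x = f x) then ν f / BD ν D f p else 0)
      ≤ ∑ g : Perm (Fin n), ν g * n :=
        Finset.sum_le_sum fun g _ => mul_le_mul_of_nonneg_left (h3 g) (hν.1 g)
    _ = n := by rw [← Finset.sum_mul, hν.2, one_mul]

/-- the numerical inequality -/
lemma num {L ϵ t : ℝ} (hϵ : 0 < ϵ) (hL : 0 < L) (h1 : 1 ≤ ϵ * L) (ht : 0 < t)
    (ht2 : t ≤ Real.exp (-(L * (1 + ϵ)))) :
    t * max (-Real.log t / L - 1) 0 ≤ ϵ * Real.exp (-(L * (1 + ϵ))) := by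
  obtain ⟨a, ha⟩ : ∃ a, Real.log t = -(L * (1 + ϵ)) - a := ⟨-(L * (1 + ϵ)) - Real.log t, by ring⟩
  have ha0 : 0 ≤ a := by
    have := (Real.log_le_log_iff ht (Real.exp_pos _)).2 ht2
    rw [Real.log_exp] at this
    linarith
  have hte : t = Real.exp (-(L * (1 + ϵ))) * Real.exp (-a) := by
    rw [← Real.exp_add, ← sub_eq_add_neg, ← ha, Real.exp_log ht]
  have hφ : -Real.log t / L - 1 = ϵ + a / L := by
    rw [ha]
    field_simp
    ring
  have hpos : 0 ≤ ϵ + a / L := by positivity
  rw [hφ, max_eq_left hpos, hte]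
  have h2 : Real.exp (-a) * (ϵ + a / L) ≤ ϵ := by
    have h3 : a / L ≤ ϵ * a := by
      rw [div_le_iff₀ hL]
      nlinarith
    have h4 : ϵ + a / L ≤ ϵ * Real.exp a := by
      have h5 : a + 1 ≤ Real.exp a := Real.add_one_le_exp a
      nlinarith
    calc Real.exp (-a) * (ϵ + a / L) ≤ Real.exp (-a) * (ϵ * Real.exp a) :=
          mul_le_mul_of_nonneg_left h4 (Real.exp_pos _).le
      _ = ϵ * (Real.exp (-a) * Real.exp a) := by ring
      _ = ϵ := by rw [← Real.exp_add, neg_add_cancel, Real.exp_zero, mul_one]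
  have h6 := mul_le_mul_of_nonneg_left h2 (Real.exp_pos (-(L * (1 + ϵ)))).le
  calc Real.exp (-(L * (1 + ϵ))) * Real.exp (-a) * (ϵ + a / L)
      = Real.exp (-(L * (1 + ϵ))) * (Real.exp (-a) * (ϵ + a / L)) := by ring
    _ ≤ Real.exp (-(L * (1 + ϵ))) * ϵ := h6
    _ = ϵ * Real.exp (-(L * (1 + ϵ))) := by ring

/-- item (3) for a fixed position -/
lemma item3 (hn : 3 ≤ n) {ν : Perm (Fin n) → ℝ} (hν : IsLaw ν) (D : Finset (Fin n)) (p : Fin n)
    {ϵ : ℝ} (hϵ : 0 < ϵ) (h1 : 1 ≤ ϵ * Real.log n) :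
    ∑ f, ν f * max (-Real.log (kern ν D f (f p) p) / Real.log n - 1) 0 ≤
      ϵ * ((∑ f, ν f * (-Real.log (kern ν D f (f p) p))) / Real.log n) +
        ϵ * (n : ℝ) ^ (-ϵ) := by
  have hL : 0 < Real.log n := Real.log_pos (by exact_mod_cast (by omega : 1 < n))
  have hn0 : (0 : ℝ) < n := by exact_mod_cast (by omega : 0 < n)
  have hE : (n : ℝ) * Real.exp (-(Real.log n * (1 + ϵ))) = (n : ℝ) ^ (-ϵ) := by
    rw [Real.rpow_def_of_pos hn0]
    have h2 : (n : ℝ) = Real.exp (Real.log n) := (Real.exp_log hn0).symm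
    conv_lhs => rw [h2, Real.log_exp]
    rw [← Real.exp_add]
    congr 1
    ring
  have hpt : ∀ f, ν f * max (-Real.log (kern ν D f (f p) p) / Real.log n - 1) 0 ≤
      ϵ * (ν f * (-Real.log (kern ν D f (f p) p)) / Real.log n) +
        (ν f * (AD ν D f / BD ν D f p)) * (ϵ * Real.exp (-(Real.log n * (1 + ϵ)))) := by
    intro f
    rcases (hν.1 f).eq_or_lt with h | h
    · rw [← h]; simp
    obtain ⟨hk0, hk1⟩ := kern_pos hν D f p h
    have hB : 0 < BD ν D f p := lt_of_lt_of_le h (BD_ge hν D f p)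
    have hA : 0 < AD ν D f := lt_of_lt_of_le hB (BD_le_AD hν D f p)
    have hlog : 0 ≤ -Real.log (kern ν D f (f p) p) := by
      have := Real.log_nonpos hk0.le hk1
      linarith
    have hι : 0 ≤ -Real.log (kern ν D f (f p) p) / Real.log n := div_nonneg hlog hL.le
    have hterm : 0 ≤ ϵ * (ν f * (-Real.log (kern ν D f (f p) p)) / Real.log n) :=
      mul_nonneg hϵ.le (div_nonneg (mul_nonneg h.le hlog) hL.le)
    have hterm2 : 0 ≤ (ν f * (AD ν D f / BD ν D f p)) *
        (ϵ * Real.exp (-(Real.log n * (1 + ϵ)))) :=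
      mul_nonneg (mul_nonneg h.le (div_pos hA hB).le) (mul_nonneg hϵ.le (Real.exp_pos _).le)
    rcases le_or_gt (kern ν D f (f p) p) (Real.exp (-(Real.log n * (1 + ϵ)))) with hc | hc
    · -- small values
      have h2 := num hϵ hL h1 hk0 hc
      have h3 : AD ν D f / BD ν D f p * kern ν D f (f p) p = 1 := by
        rw [kern_eq]
        field_simp
      have h4 := mul_le_mul_of_nonneg_left h2 (mul_nonneg h.le (div_pos hA hB).le)
      have h5 : ν f * (AD ν D f / BD ν D f p) * (kern ν D f (f p) p *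
          max (-Real.log (kern ν D f (f p) p) / Real.log n - 1) 0) =
          ν f * max (-Real.log (kern ν D f (f p) p) / Real.log n - 1) 0 := by
        calc ν f * (AD ν D f / BD ν D f p) * (kern ν D f (f p) p *
              max (-Real.log (kern ν D f (f p) p) / Real.log n - 1) 0)
            = (AD ν D f / BD ν D f p * kern ν D f (f p) p) * (ν f *
              max (-Real.log (kern ν D f (f p) p) / Real.log n - 1) 0) := by ring
          _ = _ := by rw [h3, one_mul]
      rw [h5] at h4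
      linarith
    · -- large values
      have h2 : -Real.log (kern ν D f (f p) p) ≤ Real.log n * (1 + ϵ) := by
        have := Real.log_lt_log (Real.exp_pos _) hc
        rw [Real.log_exp] at this
        linarith
      have h3 : -Real.log (kern ν D f (f p) p) / Real.log n ≤ 1 + ϵ := by
        rw [div_le_iff₀ hL]
        linarith
      have h4 : max (-Real.log (kern ν D f (f p) p) / Real.log n - 1) 0 ≤
          ϵ * (-Real.log (kern ν D f (f p) p) / Real.log n) := by
        rcases le_total (-Real.log (kern ν D f (f p) p) / Real.log n - 1) 0 with h5 | h5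
        · rw [max_eq_right h5]
          exact mul_nonneg hϵ.le hι
        · rw [max_eq_left h5]
          nlinarith
      have h6 := mul_le_mul_of_nonneg_left h4 h.le
      have h7 : ν f * (ϵ * (-Real.log (kern ν D f (f p) p) / Real.log n)) =
          ϵ * (ν f * (-Real.log (kern ν D f (f p) p)) / Real.log n) := by ring
      rw [h7] at h6
      linarith
  calc ∑ f, ν f * max (-Real.log (kern ν D f (f p) p) / Real.log n - 1) 0
      ≤ ∑ f, (ϵ * (ν f * (-Real.log (kern ν D f (f p) p)) / Real.log n) +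
        (ν f * (AD ν D f / BD ν D f p)) * (ϵ * Real.exp (-(Real.log n * (1 + ϵ))))) :=
        Finset.sum_le_sum fun f _ => hpt f
    _ = ϵ * ((∑ f, ν f * (-Real.log (kern ν D f (f p) p))) / Real.log n) +
        (∑ f, ν f * (AD ν D f / BD ν D f p)) * (ϵ * Real.exp (-(Real.log n * (1 + ϵ)))) := by
        rw [Finset.sum_add_distrib, ← Finset.mul_sum, ← Finset.sum_div, ← Finset.sum_mul]
    _ ≤ ϵ * ((∑ f, ν f * (-Real.log (kern ν D f (f p) p))) / Real.log n) +
        n * (ϵ * Real.exp (-(Real.log n * (1 + ϵ)))) := by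
        have := mul_le_mul_of_nonneg_right (sum_inv hν D p)
          (mul_nonneg hϵ.le (Real.exp_pos (-(Real.log n * (1 + ϵ)))).le)
        linarith
    _ = ϵ * ((∑ f, ν f * (-Real.log (kern ν D f (f p) p))) / Real.log n) +
        ϵ * (n : ℝ) ^ (-ϵ) := by
        rw [← hE]; ring

theorem thmS2A (hvp : Pool.Agent.Helper6.NX.S_VP) : Pool.Agent.Helper6.NX.S_S2A := by
  intro n k hk ν hn hν
  obtain ⟨v1, -, -, v4, -, -, -⟩ := hvp n ν (by omega) hν
  have hL : 0 < Real.log n := Real.log_pos (by exact_mod_cast (by omega : 1 < n))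
  have hfac : (0 : ℝ) < n.factorial := by exact_mod_cast n.factorial_pos
  have hcard : (∑ _π : Perm (Fin n), (1 : ℝ)) = n.factorial := by
    rw [Finset.sum_const, Finset.card_univ, Fintype.card_perm, Fintype.card_fin]
    simp
  have i1 : ∀ π f, 0 < ν f → 0 < kap ν k hk π f ∧ kap ν k hk π f ≤ 1 := by
    intro π f hf
    unfold kap
    exact kern_pos hν _ f _ hf
  have i2 : (n.factorial : ℝ)⁻¹ * ∑ π : Perm (Fin n), ∑ f, ν f *
      (-Real.log (kap ν k hk π f)) = Real.log n * VV ν k := by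
    have h1 : ∀ π : Perm (Fin n), ∑ f, ν f * (-Real.log (kap ν k hk π f)) =
        Real.log n * FF ν (π ⟨k, hk⟩) (im π (ini n k)) := by
      intro π
      rw [v1, ← cent_eq hν, mul_div_cancel₀ _ hL.ne']
      rfl
    rw [Finset.sum_congr rfl fun π _ => h1 π, ← Finset.mul_sum, v4]
    unfold avF
    rw [dif_pos hk]
    ring
  refine ⟨i1, i2, ?_, ?_⟩
  · intro ϵ hϵ h1
    have h2 : ∑ π : Perm (Fin n), ∑ f, ν f *
        max (-Real.log (kap ν k hk π f) / Real.log n - 1) 0 ≤
        ∑ π : Perm (Fin n), (ϵ * ((∑ f, ν f * (-Real.log (kap ν k hk π f))) / Real.log n) +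
          ϵ * (n : ℝ) ^ (-ϵ)) :=
      Finset.sum_le_sum fun π _ => item3 hn hν _ _ hϵ h1
    have h3 : ∑ π : Perm (Fin n), (ϵ * ((∑ f, ν f * (-Real.log (kap ν k hk π f))) / Real.log n) +
          ϵ * (n : ℝ) ^ (-ϵ)) = ϵ * ((∑ π : Perm (Fin n), ∑ f, ν f *
            (-Real.log (kap ν k hk π f))) / Real.log n) +
            n.factorial * (ϵ * (n : ℝ) ^ (-ϵ)) := by
      rw [Finset.sum_add_distrib, ← Finset.mul_sum, ← Finset.sum_div, ← hcard, Finset.sum_mul]
      simp
    rw [h3] at h2
    have h4 := mul_le_mul_of_nonneg_left h2 (inv_nonneg.2 hfac.le)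
    have h5 : (n.factorial : ℝ)⁻¹ * (ϵ * ((∑ π : Perm (Fin n), ∑ f, ν f *
            (-Real.log (kap ν k hk π f))) / Real.log n) +
            n.factorial * (ϵ * (n : ℝ) ^ (-ϵ))) = ϵ * VV ν k + ϵ * (n : ℝ) ^ (-ϵ) := by
      have h6 : (n.factorial : ℝ)⁻¹ * (ϵ * ((∑ π : Perm (Fin n), ∑ f, ν f *
            (-Real.log (kap ν k hk π f))) / Real.log n)) = ϵ * VV ν k := by
        calc (n.factorial : ℝ)⁻¹ * (ϵ * ((∑ π : Perm (Fin n), ∑ f, ν f *
              (-Real.log (kap ν k hk π f))) / Real.log n))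
            = ϵ * (((n.factorial : ℝ)⁻¹ * ∑ π : Perm (Fin n), ∑ f, ν f *
              (-Real.log (kap ν k hk π f))) / Real.log n) := by ring
          _ = ϵ * VV ν k := by rw [i2, mul_div_cancel_left₀ _ hL.ne']
      rw [mul_add, h6, ← mul_assoc, inv_mul_cancel₀ hfac.ne', one_mul]
    rw [h5] at h4
    exact h4
  · intro s hs
    have hns : (0 : ℝ) ≤ (n : ℝ) ^ (-s) := Real.rpow_nonneg (Nat.cast_nonneg _) _
    have hpt : ∀ π f, ν f * kap ν k hk π f ≤
        (if (n : ℝ) ^ (-s) ≤ kap ν k hk π f then ν f else 0) + ν f * (n : ℝ) ^ (-s) := by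
      intro π f
      rcases (hν.1 f).eq_or_lt with h | h
      · rw [← h]; simp
      · obtain ⟨h1, h2⟩ := i1 π f h
        split_ifs with hc
        · have := mul_le_mul_of_nonneg_left h2 h.le
          have := mul_nonneg h.le hns
          linarith
        · push Not at hc
          rw [zero_add]
          exact mul_le_mul_of_nonneg_left hc.le h.le
    have h1 : ∑ π : Perm (Fin n), ∑ f, ν f * kap ν k hk π f ≤
        ∑ π : Perm (Fin n), (∑ f, (if (n : ℝ) ^ (-s) ≤ kap ν k hk π f then ν f else 0) +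
          (n : ℝ) ^ (-s)) := by
      refine Finset.sum_le_sum fun π _ => ?_
      calc ∑ f, ν f * kap ν k hk π f ≤ ∑ f, ((if (n : ℝ) ^ (-s) ≤ kap ν k hk π f then ν f
            else 0) + ν f * (n : ℝ) ^ (-s)) := Finset.sum_le_sum fun f _ => hpt π f
        _ = _ := by rw [Finset.sum_add_distrib, ← Finset.sum_mul, hν.2, one_mul]
    have h2 : ∑ π : Perm (Fin n), (∑ f, (if (n : ℝ) ^ (-s) ≤ kap ν k hk π f then ν f else 0) +
          (n : ℝ) ^ (-s)) = ∑ π : Perm (Fin n), ∑ f,
            (if (n : ℝ) ^ (-s) ≤ kap ν k hk π f then ν f else 0) +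
            n.factorial * (n : ℝ) ^ (-s) := by
      rw [Finset.sum_add_distrib, ← hcard, Finset.sum_mul]
      simp
    rw [h2] at h1
    have h4 := mul_le_mul_of_nonneg_left h1 (inv_nonneg.2 hfac.le)
    rw [mul_add, ← mul_assoc (n.factorial : ℝ)⁻¹ (n.factorial : ℝ), inv_mul_cancel₀ hfac.ne',
      one_mul] at h4
    exact h4

end Pool.Agent.Helper62.NX
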